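import Mathlib
import Pool.Agent.Subspace.AvFinal

set_option autoImplicit false

/-!
# Far levels of signed sums of powers, and digit differences
-/

namespace Pool.Agent.DL69

open Finset Pool.Agent.DigitPowers SST

theorem geom_le {q : ℝ} (hq : 2 ≤ q) (M : ℕ) :
    ∑ m ∈ range M, (1 / q) ^ (m + 1) ≤ 1 / (q - 1) := by
  have h0 : (0 : ℝ) < q - 1 := by linarith
  have hq0 : (q : ℝ) ≠ 0 := by linarith
  have h : ∀ M : ℕ, ∑ m ∈ range M, (1 / q) ^ (m + 1) = (1 - (1 / q) ^ M) / (q - 1) := by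
    intro M
    induction M with
    | zero => simp
    | succ M ih =>
      rw [Finset.sum_range_succ, ih, pow_succ]
      field_simp
      ring
  rw [h M]
  have h1 : (0 : ℝ) ≤ (1 / q) ^ M := by positivity
  gcongr
  linarith

theorem geom_tail {q : ℕ} (hq : 2 ≤ q) (e : ℕ) (F : Finset ℕ) :
    ∑ l ∈ F, (if e < l then (q : ℝ) ^ e / (q : ℝ) ^ l else 0) ≤ 1 / ((q : ℝ) - 1) := by
  classical
  have hq2 : (2 : ℝ) ≤ q := by exact_mod_cast hq
  have hq0 : (q : ℝ) ≠ 0 := by linarith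
  rw [← Finset.sum_filter]
  have h1 : ∑ l ∈ F.filter (fun l => e < l), (q : ℝ) ^ e / (q : ℝ) ^ l =
      ∑ m ∈ (F.filter (fun l => e < l)).image (fun l => l - e - 1), (1 / (q : ℝ)) ^ (m + 1) := by
    rw [Finset.sum_image]
    · apply Finset.sum_congr rfl
      intro l hl
      have h2 : e < l := (Finset.mem_filter.mp hl).2
      have h3 : l - e - 1 + 1 = l - e := by omega
      rw [h3, one_div, inv_pow, div_eq_iff (pow_ne_zero _ hq0), inv_mul_eq_div,
        eq_div_iff (pow_ne_zero _ hq0), ← pow_add]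
      congr 1
      omega
    · intro a ha b hb hab
      have h2 : e < a := (Finset.mem_filter.mp (Finset.mem_coe.mp ha)).2
      have h3 : e < b := (Finset.mem_filter.mp (Finset.mem_coe.mp hb)).2
      simp only at hab
      omega
  rw [h1]
  obtain ⟨M, hM⟩ := ((F.filter (fun l => e < l)).image (fun l => l - e - 1)).exists_nat_subset_range
  refine (Finset.sum_le_sum_of_subset_of_nonneg hM ?_).trans (geom_le hq2 M)
  intro i _ _
  positivity

/-- A signed sum of powers of `q` has few far levels. -/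
theorem far_le {q : ℕ} (hq : 2 ≤ q) {ι : Type} (s : Finset ι) (c : ι → ℤ) (e : ι → ℕ) (x : ℤ)
    (hx : x = ∑ j ∈ s, c j * (q : ℤ) ^ e j) :
    ((q : ℝ) - 1) * ((farSet q 0 x).card : ℝ) ≤ ((q : ℝ) + 1) * ∑ j ∈ s, |(c j : ℝ)| := by
  classical
  have hq2 : (2 : ℝ) ≤ q := by exact_mod_cast hq
  have hq1 : (0 : ℝ) < (q : ℝ) - 1 := by linarith
  have hq0 : (0 : ℝ) < q := by linarith
  have key : ∀ l ∈ farSet q 0 x, (1 : ℝ) ≤ ((q : ℝ) + 1) * ∑ j ∈ s, |(c j : ℝ)| *
      (if e j < l then (q : ℝ) ^ e j / (q : ℝ) ^ l else 0) := by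
    intro l hl
    rw [mem_farSet hq] at hl
    have h1 : ¬ ((q : ℤ) + 1) * (q : ℤ) ^ 0 * |x - (∑ j ∈ s.filter (fun j => ¬ e j < l),
        c j * (q : ℤ) ^ (e j - l)) * (q : ℤ) ^ l| < (q : ℤ) ^ l := fun h => hl ⟨_, h⟩
    have h2 : x - (∑ j ∈ s.filter (fun j => ¬ e j < l),
        c j * (q : ℤ) ^ (e j - l)) * (q : ℤ) ^ l =
        ∑ j ∈ s.filter (fun j => e j < l), c j * (q : ℤ) ^ e j := by
      rw [hx, ← Finset.sum_filter_add_sum_filter_not s (fun j => e j < l), Finset.sum_mul]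
      have h3 : ∑ j ∈ s.filter (fun j => ¬ e j < l), c j * (q : ℤ) ^ e j =
          ∑ j ∈ s.filter (fun j => ¬ e j < l), c j * (q : ℤ) ^ (e j - l) * (q : ℤ) ^ l := by
        apply Finset.sum_congr rfl
        intro j hj
        have h4 : ¬ e j < l := (Finset.mem_filter.mp hj).2
        rw [mul_assoc, ← pow_add]
        congr 2
        omega
      rw [h3]
      ring
    rw [h2, pow_zero, mul_one, not_lt] at h1
    have h5 : (q : ℝ) ^ l ≤ ((q : ℝ) + 1) *
        |∑ j ∈ s.filter (fun j => e j < l), (c j : ℝ) * (q : ℝ) ^ e j| := by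
      exact_mod_cast h1
    have h6 : |∑ j ∈ s.filter (fun j => e j < l), (c j : ℝ) * (q : ℝ) ^ e j| ≤
        ∑ j ∈ s, |(c j : ℝ)| * (if e j < l then (q : ℝ) ^ e j else 0) := by
      refine (Finset.abs_sum_le_sum_abs _ _).trans ?_
      rw [Finset.sum_filter]
      apply Finset.sum_le_sum
      intro j _
      split_ifs with h
      · rw [abs_mul, abs_of_pos (pow_pos hq0 (e j))]
      · simp
    have h7 : ∑ j ∈ s, |(c j : ℝ)| * (if e j < l then (q : ℝ) ^ e j / (q : ℝ) ^ l else 0) =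
        (∑ j ∈ s, |(c j : ℝ)| * (if e j < l then (q : ℝ) ^ e j else 0)) / (q : ℝ) ^ l := by
      rw [Finset.sum_div]
      apply Finset.sum_congr rfl
      intro j _
      split_ifs <;> ring
    rw [h7, ← mul_div_assoc, le_div_iff₀ (pow_pos hq0 l), one_mul]
    exact h5.trans (mul_le_mul_of_nonneg_left h6 (by linarith))
  have h8 : ((farSet q 0 x).card : ℝ) ≤ ∑ l ∈ farSet q 0 x, ((q : ℝ) + 1) *
      ∑ j ∈ s, |(c j : ℝ)| * (if e j < l then (q : ℝ) ^ e j / (q : ℝ) ^ l else 0) := by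
    have h9 := Finset.sum_le_sum key
    simpa using h9
  have h10 : ∑ l ∈ farSet q 0 x, ((q : ℝ) + 1) *
      ∑ j ∈ s, |(c j : ℝ)| * (if e j < l then (q : ℝ) ^ e j / (q : ℝ) ^ l else 0) ≤
      ((q : ℝ) + 1) * ((∑ j ∈ s, |(c j : ℝ)|) * (1 / ((q : ℝ) - 1))) := by
    rw [← Finset.mul_sum, Finset.sum_comm, Finset.sum_mul]
    apply mul_le_mul_of_nonneg_left _ (by linarith)
    apply Finset.sum_le_sum
    intro j _
    rw [← Finset.mul_sum]
    exact mul_le_mul_of_nonneg_left (geom_tail hq (e j) _) (abs_nonneg _)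
  have h11 := h8.trans h10
  have h12 : ((q : ℝ) - 1) * ((farSet q 0 x).card : ℝ) ≤ ((q : ℝ) - 1) *
      (((q : ℝ) + 1) * ((∑ j ∈ s, |(c j : ℝ)|) * (1 / ((q : ℝ) - 1)))) :=
    mul_le_mul_of_nonneg_left h11 hq1.le
  refine h12.trans (le_of_eq ?_)
  field_simp

theorem digit_sum (q x L : ℕ) : x % q ^ L = ∑ i ∈ range L, (x / q ^ i % q) * q ^ i := by
  induction L with
  | zero => simp [Nat.mod_one]
  | succ L ih =>
    rw [Nat.mod_pow_succ, Finset.sum_range_succ, ih]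
    ring

/-- the positions in which the base `q` digits of `x` and `y` differ -/
theorem far_sub_le {q : ℕ} (hq : 2 ≤ q) (x y : ℕ) :
    ((farSet q 0 ((x : ℤ) - y)).card : ℝ) ≤
      ((q : ℝ) + 1) * ({i : ℕ | x / q ^ i % q ≠ y / q ^ i % q}.ncard : ℝ) := by
  classical
  have hq2 : (2 : ℝ) ≤ q := by exact_mod_cast hq
  have hq1 : (0 : ℝ) < (q : ℝ) - 1 := by linarith
  obtain ⟨L, hL⟩ : ∃ L, L = max x y := ⟨_, rfl⟩
  have hlt : ∀ z, z ≤ L → ∀ i, L ≤ i → z < q ^ i := by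
    intro z hz i hi
    have h1 : i < q ^ i := Nat.lt_pow_self (by omega)
    omega
  have hset : {i : ℕ | x / q ^ i % q ≠ y / q ^ i % q} =
      ((range L).filter (fun i => x / q ^ i % q ≠ y / q ^ i % q) : Finset ℕ) := by
    ext i
    simp only [Set.mem_setOf_eq, Finset.coe_filter, Finset.mem_range]
    constructor
    · intro h
      refine ⟨?_, h⟩
      by_contra hi
      apply h
      rw [Nat.div_eq_of_lt (hlt x (by omega) i (by omega)),
        Nat.div_eq_of_lt (hlt y (by omega) i (by omega))]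
    · exact fun h => h.2
  rw [hset, Set.ncard_coe_finset]
  have hx : x = ∑ i ∈ range L, (x / q ^ i % q) * q ^ i := by
    rw [← digit_sum, Nat.mod_eq_of_lt (hlt x (by omega) L le_rfl)]
  have hy : y = ∑ i ∈ range L, (y / q ^ i % q) * q ^ i := by
    rw [← digit_sum, Nat.mod_eq_of_lt (hlt y (by omega) L le_rfl)]
  have hxy : (x : ℤ) - y = ∑ i ∈ range L,
      (((x / q ^ i % q : ℕ) : ℤ) - ((y / q ^ i % q : ℕ) : ℤ)) * (q : ℤ) ^ i := by
    have h1 : (x : ℤ) = ∑ i ∈ range L, ((x / q ^ i % q : ℕ) : ℤ) * (q : ℤ) ^ i := by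
      exact_mod_cast hx
    have h2 : (y : ℤ) = ∑ i ∈ range L, ((y / q ^ i % q : ℕ) : ℤ) * (q : ℤ) ^ i := by
      exact_mod_cast hy
    calc (x : ℤ) - y = (∑ i ∈ range L, ((x / q ^ i % q : ℕ) : ℤ) * (q : ℤ) ^ i) -
          ∑ i ∈ range L, ((y / q ^ i % q : ℕ) : ℤ) * (q : ℤ) ^ i := by rw [← h1, ← h2]
      _ = _ := by
        rw [← Finset.sum_sub_distrib]
        apply Finset.sum_congr rfl
        intro i _
        ring
  have h3 := far_le hq (range L)
    (fun i => ((x / q ^ i % q : ℕ) : ℤ) - ((y / q ^ i % q : ℕ) : ℤ)) (fun i => i) _ hxy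
  have h4 : ∑ i ∈ range L, |((((x / q ^ i % q : ℕ) : ℤ) - ((y / q ^ i % q : ℕ) : ℤ) : ℤ) : ℝ)| ≤
      ((q : ℝ) - 1) *
        (((range L).filter (fun i => x / q ^ i % q ≠ y / q ^ i % q)).card : ℝ) := by
    have h5 : ∀ i ∈ range L,
        |((((x / q ^ i % q : ℕ) : ℤ) - ((y / q ^ i % q : ℕ) : ℤ) : ℤ) : ℝ)| ≤
        if x / q ^ i % q ≠ y / q ^ i % q then ((q : ℝ) - 1) else 0 := by
      intro i _
      split_ifs with h
      · have h6 : x / q ^ i % q < q := Nat.mod_lt _ (by omega)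
        have h7 : y / q ^ i % q < q := Nat.mod_lt _ (by omega)
        have h8 : |((x / q ^ i % q : ℕ) : ℤ) - ((y / q ^ i % q : ℕ) : ℤ)| ≤ (q : ℤ) - 1 := by
          rw [abs_le]
          constructor <;> omega
        exact_mod_cast h8
      · rw [not_not] at h
        rw [h]
        simp
    refine (Finset.sum_le_sum h5).trans ?_
    rw [← Finset.sum_filter, Finset.sum_const, nsmul_eq_mul, mul_comm]
  have h9 := h3.trans (mul_le_mul_of_nonneg_left h4 (by linarith : (0 : ℝ) ≤ (q : ℝ) + 1))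
  have h10 : ((q : ℝ) - 1) * ((farSet q 0 ((x : ℤ) - y)).card : ℝ) ≤ ((q : ℝ) - 1) *
      (((q : ℝ) + 1) *
        (((range L).filter (fun i => x / q ^ i % q ≠ y / q ^ i % q)).card : ℝ)) := by
    linarith
  exact le_of_mul_le_mul_left h10 hq1

end Pool.Agent.DL69
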