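import Pool.Agent.DL69.Far

set_option autoImplicit false

/-!
# Harmonic bound for the digit distance of `A p ^ n` and `B p ^ n`
-/

namespace Pool.Agent.DL69

open Finset Pool.Agent.DigitPowers SST

theorem distance_eps {p q : ℕ} (hp : 2 ≤ p) (hq : 2 ≤ q) (hpq : Nat.Coprime p q) {ε : ℝ}
    (hε : 0 < ε) : ∃ C : ℝ, 0 < C ∧ ∀ A B : ℕ, A ≠ B → ∀ N : ℕ,
      ∑ n ∈ range N,
        1 / ({i : ℕ | A * p ^ n / q ^ i % q ≠ B * p ^ n / q ^ i % q}.ncard : ℝ) ≤
        C * (N : ℝ) ^ ε := by
  obtain ⟨C, hC, hmain⟩ := harmonic_eps hp hq hpq hε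
  refine ⟨((q : ℝ) + 1) * C, by positivity, ?_⟩
  intro A B hAB N
  have hA' : (A : ℤ) - B ≠ 0 := by
    intro h
    apply hAB
    omega
  have h1 := hmain _ hA' N
  calc ∑ n ∈ range N, 1 / ({i : ℕ | A * p ^ n / q ^ i % q ≠ B * p ^ n / q ^ i % q}.ncard : ℝ)
      ≤ ∑ n ∈ range N, ((q : ℝ) + 1) * (1 / (farN p q ((A : ℤ) - B) 0 n : ℝ)) := by
        apply Finset.sum_le_sum
        intro n _
        have h2 := farN_pos hq hp hA' n
        have h3 := far_sub_le hq (A * p ^ n) (B * p ^ n)
        have e : ((A * p ^ n : ℕ) : ℤ) - ((B * p ^ n : ℕ) : ℤ) =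
            (p : ℤ) ^ n * ((A : ℤ) - B) := by
          push_cast
          ring
        rw [e] at h3
        have h4 : (farN p q ((A : ℤ) - B) 0 n : ℝ) ≤ ((q : ℝ) + 1) *
            ({i : ℕ | A * p ^ n / q ^ i % q ≠ B * p ^ n / q ^ i % q}.ncard : ℝ) := h3
        have h5 : (0 : ℝ) < ({i : ℕ | A * p ^ n / q ^ i % q ≠
            B * p ^ n / q ^ i % q}.ncard : ℝ) := by
          have h6 : (0 : ℝ) < (q : ℝ) + 1 := by positivity
          exact pos_of_mul_pos_right (h2.trans_le h4) h6.le
        rw [mul_one_div, div_le_div_iff₀ h5 h2]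
        linarith
    _ = ((q : ℝ) + 1) * ∑ n ∈ range N, 1 / (farN p q ((A : ℤ) - B) 0 n : ℝ) := by
        rw [Finset.mul_sum]
    _ ≤ ((q : ℝ) + 1) * (C * (N : ℝ) ^ ε) :=
        mul_le_mul_of_nonneg_left h1 (by positivity)
    _ = _ := by ring

/-- The distance of `m` and `q ^ k m` is at most `2 k` plus the number of changes with lag `k`. -/
theorem distance_shift {q : ℕ} (hq : 2 ≤ q) (k m : ℕ) :
    {i : ℕ | m / q ^ i % q ≠ m * q ^ k / q ^ i % q}.ncard ≤
      2 * k + ((range (Nat.digits q m).length).filter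
        (fun i => i + k < (Nat.digits q m).length ∧
          m / q ^ i % q ≠ m / q ^ (i + k) % q)).card := by
  classical
  obtain ⟨n, hn⟩ : ∃ n, (Nat.digits q m).length = n := ⟨_, rfl⟩
  have hlt : ∀ i, n ≤ i → m / q ^ i = 0 := by
    intro i hi
    have h6 : m < q ^ n := by rw [← hn]; exact Nat.lt_base_pow_length_digits (by omega)
    exact Nat.div_eq_of_lt (h6.trans_le (Nat.pow_le_pow_right (by omega) hi))
  rw [hn]
  have hsub : {i : ℕ | m / q ^ i % q ≠ m * q ^ k / q ^ i % q} ⊆
      ((range k ∪ Ico n (n + k)) ∪ ((range n).filter (fun i => i + k < n ∧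
        m / q ^ i % q ≠ m / q ^ (i + k) % q)).image (fun i => i + k) : Finset ℕ) := by
    intro i hi
    have hi' : m / q ^ i % q ≠ m * q ^ k / q ^ i % q := hi
    rw [Finset.mem_coe, Finset.mem_union, Finset.mem_union, Finset.mem_range, Finset.mem_Ico,
      Finset.mem_image]
    by_cases hik : i < k
    · exact Or.inl (Or.inl hik)
    · obtain ⟨j, rfl⟩ : ∃ j, i = j + k := ⟨i - k, by omega⟩
      have h1 : m * q ^ k / q ^ (j + k) = m / q ^ j := by
        rw [pow_add]
        exact Nat.mul_div_mul_right _ _ (by positivity)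
      rw [h1] at hi'
      by_cases hjn : j + k < n
      · right
        refine ⟨j, ?_, rfl⟩
        rw [Finset.mem_filter, Finset.mem_range]
        exact ⟨by omega, hjn, fun h => hi' h.symm⟩
      · left
        right
        refine ⟨by omega, ?_⟩
        by_contra hcon
        apply hi'
        rw [hlt (j + k) (by omega), hlt j (by omega)]
  refine (Set.ncard_le_ncard hsub (Finset.finite_toSet _)).trans ?_
  rw [Set.ncard_coe_finset]
  refine (Finset.card_union_le _ _).trans ?_
  have h2 : (range k ∪ Ico n (n + k)).card ≤ k + k := by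
    refine (Finset.card_union_le _ _).trans ?_
    rw [Finset.card_range, Nat.card_Ico]
    omega
  have h3 := Finset.card_image_le (s := (range n).filter (fun i => i + k < n ∧
        m / q ^ i % q ≠ m / q ^ (i + k) % q)) (f := fun i => i + k)
  omega

theorem main {p q : ℕ} (hp : 2 ≤ p) (hq : 2 ≤ q) (hpq : Nat.Coprime p q) {ε : ℝ}
    (hε : 0 < ε) : ∃ C : ℝ, 0 < C ∧ ∀ N : ℕ,
      (∀ A B : ℕ, A ≠ B → ∑ n ∈ range N,
        1 / ({i : ℕ | A * p ^ n / q ^ i % q ≠ B * p ^ n / q ^ i % q}.ncard : ℝ) ≤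
        C * (N : ℝ) ^ ε) ∧
      (∀ A k : ℕ, 1 ≤ A → 1 ≤ k → ∑ n ∈ range N,
        1 / ((k : ℝ) + (((range (Nat.digits q (A * p ^ n)).length).filter
          (fun i => i + k < (Nat.digits q (A * p ^ n)).length ∧
            A * p ^ n / q ^ i % q ≠ A * p ^ n / q ^ (i + k) % q)).card : ℝ)) ≤
        C * (N : ℝ) ^ ε) := by
  obtain ⟨C, hC, hmain⟩ := distance_eps hp hq hpq hε
  refine ⟨2 * C, by positivity, ?_⟩
  intro N
  have hN : (0 : ℝ) ≤ (N : ℝ) ^ ε := Real.rpow_nonneg (Nat.cast_nonneg _) _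
  constructor
  · intro A B hAB
    refine (hmain A B hAB N).trans ?_
    nlinarith [mul_nonneg hC.le hN]
  · intro A k hA hk
    have hAB : A ≠ A * q ^ k := by
      have h1 : 1 < q ^ k := Nat.one_lt_pow (by omega) (by omega)
      have h2 : A * 1 < A * q ^ k := Nat.mul_lt_mul_of_pos_left h1 (by omega)
      omega
    have h3 := hmain A (A * q ^ k) hAB N
    calc ∑ n ∈ range N, 1 / ((k : ℝ) + (((range (Nat.digits q (A * p ^ n)).length).filter
          (fun i => i + k < (Nat.digits q (A * p ^ n)).length ∧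
            A * p ^ n / q ^ i % q ≠ A * p ^ n / q ^ (i + k) % q)).card : ℝ))
        ≤ ∑ n ∈ range N, 2 * (1 / ({i : ℕ | A * p ^ n / q ^ i % q ≠
            A * q ^ k * p ^ n / q ^ i % q}.ncard : ℝ)) := by
          apply Finset.sum_le_sum
          intro n _
          have h4 := distance_shift hq k (A * p ^ n)
          have e : A * p ^ n * q ^ k = A * q ^ k * p ^ n := by ring
          rw [e] at h4
          have h5 := far_sub_le hq (A * p ^ n) (A * q ^ k * p ^ n)
          have hne : ((A * p ^ n : ℕ) : ℤ) - ((A * q ^ k * p ^ n : ℕ) : ℤ) ≠ 0 := by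
            intro h
            apply hAB
            have h6 : A * p ^ n = A * q ^ k * p ^ n := by exact_mod_cast sub_eq_zero.mp h
            exact Nat.eq_of_mul_eq_mul_right (by positivity) h6
          have h7 := succ_le_card_farSet hq 0 hne
          have h8 : (0 : ℝ) < ((farSet q 0 (((A * p ^ n : ℕ) : ℤ) -
              ((A * q ^ k * p ^ n : ℕ) : ℤ))).card : ℝ) := by
            exact_mod_cast h7
          have h9 : (0 : ℝ) < ({i : ℕ | A * p ^ n / q ^ i % q ≠
              A * q ^ k * p ^ n / q ^ i % q}.ncard : ℝ) := by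
            have h6 : (0 : ℝ) < (q : ℝ) + 1 := by positivity
            exact pos_of_mul_pos_right (h8.trans_le h5) h6.le
          have h10 : ({i : ℕ | A * p ^ n / q ^ i % q ≠
              A * q ^ k * p ^ n / q ^ i % q}.ncard : ℝ) ≤ 2 * (k : ℝ) +
              (((range (Nat.digits q (A * p ^ n)).length).filter
              (fun i => i + k < (Nat.digits q (A * p ^ n)).length ∧
              A * p ^ n / q ^ i % q ≠ A * p ^ n / q ^ (i + k) % q)).card : ℝ) := by
            exact_mod_cast h4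
          have h11 : (1 : ℝ) ≤ k := by exact_mod_cast hk
          have h12 : (0 : ℝ) ≤ (((range (Nat.digits q (A * p ^ n)).length).filter
              (fun i => i + k < (Nat.digits q (A * p ^ n)).length ∧
              A * p ^ n / q ^ i % q ≠ A * p ^ n / q ^ (i + k) % q)).card : ℝ) :=
            Nat.cast_nonneg _
          rw [mul_one_div, div_le_div_iff₀ (by linarith) h9]
          linarith
      _ = 2 * ∑ n ∈ range N, 1 / ({i : ℕ | A * p ^ n / q ^ i % q ≠
            A * q ^ k * p ^ n / q ^ i % q}.ncard : ℝ) := by rw [Finset.mul_sum]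
      _ ≤ 2 * (C * (N : ℝ) ^ ε) := mul_le_mul_of_nonneg_left h3 (by norm_num)
      _ = _ := by ring

end Pool.Agent.DL69
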